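import Pool.Agent.Lib.MP_e6e31f_h67.Cases
import Pool.Agent.Lib.MP_e6e31f_h67.Slice

/-!
# The two-player hat game when one strategy takes at most four values

Proof: fix all hats of the stack `y` which `g` never names; then `B` wears `m ≤ 4` hats.  Pair the
stack `x` with its complement.  For the Boolean function `u(y) = x (f y)` there is a pointwise
inequality: the winning summands of the pair are at most a constant minus a combination, with
nonnegative coefficients, of products of two or four of the signs of `u`; the mean value over `x` of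
such a product is `0` or `1`.
-/

set_option autoImplicit false

namespace Pool.Agent.Results.MP_e6e31f_co.FourValues

open Finset

/-- The winning probability of the strategies `f`, `g` for stacks of height `h`. -/
noncomputable def winProb {h : ℕ} (f g : (Fin h → Bool) → Fin h) : ℝ :=
  ((univ.filter (fun p : (Fin h → Bool) × (Fin h → Bool) =>
      p.1 (f p.2) = true ∧ p.2 (g p.1) = true)).card : ℝ) / (4 : ℝ) ^ h

/-- The values `1/4, 5/16, 11/32, 89/256`. -/
noncomputable def v (m : ℕ) : ℝ :=
  if m = 1 then 1 / 4 else if m = 2 then 5 / 16 else if m = 3 then 11 / 32 else 89 / 256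

open Pool.Agent.Lib.MP_e6e31f_h67 in
theorem bound_g {h s : ℕ} (f g : (Fin h → Bool) → Fin h) (hs : (univ.image g).card = s)
    (h1 : 1 ≤ s) (h4 : s ≤ 4) : winProb f g ≤ v s := by
  have hw : winProb f g = (wins f g : ℝ) / 4 ^ h := rfl
  have hp : (0 : ℝ) < 4 ^ h := by positivity
  rw [hw, div_le_iff₀ hp]
  interval_cases s
  · have h5 := slice_bound (c := 2) (d := 1) f g hs
      (fun f' g' => by have := bound1 f' g'; omega)
    have h6 : (2 * 2 ^ 1 * wins f g : ℝ) ≤ 1 * 4 ^ h := by exact_mod_cast h5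
    have e : v 1 = 1 / 4 := by simp [v]
    rw [e]
    linarith
  · have h5 := slice_bound (c := 4) (d := 5) f g hs (fun f' g' => bound2 f' g')
    have h6 : (4 * 2 ^ 2 * wins f g : ℝ) ≤ 5 * 4 ^ h := by exact_mod_cast h5
    have e : v 2 = 5 / 16 := by simp [v]
    rw [e]
    linarith
  · have h5 := slice_bound (c := 4) (d := 11) f g hs (fun f' g' => bound3 f' g')
    have h6 : (4 * 2 ^ 3 * wins f g : ℝ) ≤ 11 * 4 ^ h := by exact_mod_cast h5
    have e : v 3 = 11 / 32 := by simp [v]
    rw [e]
    linarith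
  · have h5 := slice_bound (c := 32) (d := 178) f g hs (fun f' g' => bound4 f' g')
    have h6 : (32 * 2 ^ 4 * wins f g : ℝ) ≤ 178 * 4 ^ h := by exact_mod_cast h5
    have e : v 4 = 89 / 256 := by simp [v]
    rw [e]
    linarith

theorem v_mono {s m : ℕ} (h1 : 1 ≤ s) (hs : s ≤ m) (hm : m ≤ 4) : v s ≤ v m := by
  interval_cases m <;> interval_cases s <;> norm_num [v]

theorem bound_g' {h m : ℕ} (f g : (Fin h → Bool) → Fin h) (hs : (univ.image g).card ≤ m)
    (hm : m ≤ 4) : winProb f g ≤ v m := by
  have h1 : 1 ≤ (univ.image g).card :=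
    Finset.card_pos.2 ⟨g (fun _ => true), Finset.mem_image_of_mem _ (Finset.mem_univ _)⟩
  exact (bound_g f g rfl h1 (hs.trans hm)).trans (v_mono h1 hs hm)

/-- The stack coded by its index (hat `i` is the digit `2 ^ i`). -/
def code {m : ℕ} (y : Fin m → Bool) : ℕ := ∑ i, if y i = true then 2 ^ (i : ℕ) else 0

def f1 : (Fin 1 → Bool) → Fin 1 := fun _ => 0
def f2 (y : Fin 2 → Bool) : Fin 2 := ([1, 1, 0, 0] : List (Fin 2)).getD (code y) 0
def g2 (y : Fin 2 → Bool) : Fin 2 := ([0, 1, 0, 0] : List (Fin 2)).getD (code y) 0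
def f3 (y : Fin 3 → Bool) : Fin 3 := ([0, 2, 0, 2, 1, 1, 0, 0] : List (Fin 3)).getD (code y) 0
def g3 (y : Fin 3 → Bool) : Fin 3 := ([0, 1, 2, 2, 0, 1, 0, 1] : List (Fin 3)).getD (code y) 0
def f4 (y : Fin 4 → Bool) : Fin 4 :=
  ([1, 1, 0, 0, 2, 2, 0, 0, 3, 1, 3, 1, 3, 2, 3, 2] : List (Fin 4)).getD (code y) 0
def g4 (y : Fin 4 → Bool) : Fin 4 :=
  ([2, 1, 0, 1, 2, 2, 0, 0, 3, 1, 3, 1, 3, 2, 3, 0] : List (Fin 4)).getD (code y) 0

theorem card1 : (univ.filter (fun p : (Fin 1 → Bool) × (Fin 1 → Bool) =>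
    p.1 (f1 p.2) = true ∧ p.2 (f1 p.1) = true)).card = 1 := by decide +kernel
theorem card2 : (univ.filter (fun p : (Fin 2 → Bool) × (Fin 2 → Bool) =>
    p.1 (f2 p.2) = true ∧ p.2 (g2 p.1) = true)).card = 5 := by decide +kernel
theorem card3 : (univ.filter (fun p : (Fin 3 → Bool) × (Fin 3 → Bool) =>
    p.1 (f3 p.2) = true ∧ p.2 (g3 p.1) = true)).card = 22 := by decide +kernel
theorem card4 : (univ.filter (fun p : (Fin 4 → Bool) × (Fin 4 → Bool) =>
    p.1 (f4 p.2) = true ∧ p.2 (g4 p.1) = true)).card = 89 := by decide +kernel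

/-- For `1 ≤ m ≤ 4` the greatest winning probability of a pair of strategies of which at least one
takes at most `m` values is `v m = 1/4, 5/16, 11/32, 89/256` (stacks of any finite height `h`), and it
is attained for stacks of height `m`. -/
theorem result (m : ℕ) (h1 : 1 ≤ m) (h4 : m ≤ 4) :
    (∀ (h : ℕ) (f g : (Fin h → Bool) → Fin h),
      ((univ.image f).card ≤ m ∨ (univ.image g).card ≤ m) → winProb f g ≤ v m) ∧
    (∃ f g : (Fin m → Bool) → Fin m, winProb f g = v m) := by
  constructor
  · intro h f g hfg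
    rcases hfg with hf | hg
    · have e : winProb f g = winProb g f := by
        have := Pool.Agent.Lib.MP_e6e31f_h67.wins_comm f g
        unfold Pool.Agent.Lib.MP_e6e31f_h67.wins at this
        rw [winProb, winProb, this]
      rw [e]
      exact bound_g' g f hf h4
    · exact bound_g' f g hg h4
  · interval_cases m
    · refine ⟨f1, f1, ?_⟩
      rw [winProb, card1]
      norm_num [v]
    · refine ⟨f2, g2, ?_⟩
      rw [winProb, card2]
      norm_num [v]
    · refine ⟨f3, g3, ?_⟩
      rw [winProb, card3]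
      norm_num [v]
    · refine ⟨f4, g4, ?_⟩
      rw [winProb, card4]
      norm_num [v]

end Pool.Agent.Results.MP_e6e31f_co.FourValues
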