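import Pool.Agent.Lib.MP_e6e31f_co.LA.Final

set_option autoImplicit false

namespace Pool.Agent.Results.MP_e6e31f_co.Lookahead

open Pool.Agent.Lib.MP_e6e31f_co.LA

/-- Two-player Levine hat game with stacks of height `h` (`true` = black).  `Lookahead f a`: whether
`f` names hat `k` is decided by the hats `≤ k + a` of the stack that the player sees.

(A) If the first player has lookahead `a`, the second one lookahead `b`, and `a + b ≤ 2`, then the team
wins with probability at most `7/20`.
(B) This is sharp: strategies with lookahead one for both players come arbitrarily close to `7/20`. -/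
theorem result :
    (∀ (h : ℕ) (f g : (Fin h → Bool) → Fin h) (a b : ℤ), a + b ≤ 2 → Lookahead f a →
      Lookahead g b →
      ((Finset.univ.filter (fun p : (Fin h → Bool) × (Fin h → Bool) =>
        p.1 (f p.2) = true ∧ p.2 (g p.1) = true)).card : ℝ) / (4 : ℝ) ^ h ≤ 7 / 20) ∧
    (∀ ε : ℝ, 0 < ε → ∃ (h : ℕ) (f g : (Fin h → Bool) → Fin h), Lookahead f 1 ∧ Lookahead g 1 ∧
      7 / 20 - ε < ((Finset.univ.filter (fun p : (Fin h → Bool) × (Fin h → Bool) =>
        p.1 (f p.2) = true ∧ p.2 (g p.1) = true)).card : ℝ) / (4 : ℝ) ^ h) :=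
  ⟨fun _ f g a b hab hf hg => upper f g a b hab hf hg, lower⟩

end Pool.Agent.Results.MP_e6e31f_co.Lookahead
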