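import Pool.Agent.Lib.MP_e6e31f_sep.Final

set_option autoImplicit false

namespace Pool.Agent.Results.MP_e6e31f_co.SeparatedTriples

/-- Class of the `k`-th triple of hats in the stack `t`: `0` if the three hats have the same
colour, `1` if the first is black and the second white, `2` if the second is black and the third
white, `3` if the third is black and the first white (exactly one of the four cases holds). -/
def cls {h d : ℕ} (τ : Fin d → Fin 3 → Fin h) (k : Fin d) (t : Fin h → Bool) : Fin 4 :=
  if t (τ k 0) = true ∧ t (τ k 1) = false then 1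
  else if t (τ k 1) = true ∧ t (τ k 2) = false then 2
  else if t (τ k 2) = true ∧ t (τ k 0) = false then 3
  else 0

/-- The hat named by the strategy `f` determines which of the triples is the first that is not of
one colour, and the class of this triple: if `f` names the same hat for `t` and `t'`, and the
triples before the `k`-th one are of one colour in `t` and in `t'`, then the `k`-th triple has the
same class in `t` and in `t'`. -/
def Separating {h d : ℕ} (τ : Fin d → Fin 3 → Fin h) (f : (Fin h → Bool) → Fin h) : Prop :=
  ∀ t t' : Fin h → Bool, f t = f t' → ∀ k : Fin d,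
    (∀ j < k, cls τ j t = 0) → (∀ j < k, cls τ j t' = 0) → cls τ k t = cls τ k t'

/-- The triples are disjoint. -/
def Disj {h d : ℕ} (τ : Fin d → Fin 3 → Fin h) : Prop :=
  Function.Injective (fun x : Fin d × Fin 3 => τ x.1 x.2)

/-- Probability that the team wins. -/
noncomputable def winProb {h : ℕ} (f g : (Fin h → Bool) → Fin h) : ℝ :=
  ((Finset.univ.filter (fun p : (Fin h → Bool) × (Fin h → Bool) =>
    p.1 (f p.2) = true ∧ p.2 (g p.1) = true)).card : ℝ) / (4 : ℝ) ^ h

/-- Two-player hat game, `d ≥ 1` disjoint triples of hats.  If one of the two strategies is separating,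
the team wins with probability at most `7 / 20 + 3 / (320 * 16 ^ d)`; there are pairs of separating
strategies that win with probability as close to `7 / 20` as we like. -/
theorem result (d : ℕ) (_hd : 1 ≤ d) :
    (∀ (h : ℕ) (τ : Fin d → Fin 3 → Fin h), Disj τ → ∀ f g : (Fin h → Bool) → Fin h,
      (Separating τ f ∨ Separating τ g) → winProb f g ≤ 7 / 20 + 3 / (320 * 16 ^ d)) ∧
    (∀ ε : ℝ, 0 < ε → ∃ (h : ℕ) (τ : Fin d → Fin 3 → Fin h) (f g : (Fin h → Bool) → Fin h),
      Disj τ ∧ Separating τ f ∧ Separating τ g ∧ 7 / 20 - ε < winProb f g) :=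
  ⟨fun _ τ hτ f g hs => Pool.Agent.Lib.MP_e6e31f_sep.main2 τ hτ f g hs,
    fun ε hε => Pool.Agent.Lib.MP_e6e31f_sep.sharp d ε hε⟩

end Pool.Agent.Results.MP_e6e31f_co.SeparatedTriples
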