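import Pool.Agent.Lib.MP_e6e31f_co.Game

set_option autoImplicit false

namespace Pool.Agent.Results.MP_e6e31f_co.UpperBound

/-- In the two-player hat game with uniformly random stacks of height `h`, every pair of
strategies wins with probability at most `23/64`. -/
theorem result (h : ℕ) (f g : (Fin h → Bool) → Fin h) :
    ((Finset.univ.filter (fun p : (Fin h → Bool) × (Fin h → Bool) =>
      p.1 (f p.2) = true ∧ p.2 (g p.1) = true)).card : ℝ) / (4 : ℝ) ^ h ≤ 23 / 64 :=
  Pool.Agent.Lib.MP_e6e31f_co.game f g

end Pool.Agent.Results.MP_e6e31f_co.UpperBound
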